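import Pool.Agent.Helper1K1.CT.Rays

/-!
# MP_9c739d_al, Q1: the preimage of the non-conical limit points can have positive Hausdorff dimension

`H` is the free group of rank 3 and `X` its Cayley tree. `Bd` is the boundary (the infinite reduced words), `vtx x n`
the `n`-th vertex of the geodesic ray from `1` to `x`, `IsRay` says that a sequence is a geodesic ray from `1`,
`gromov x y` is the Gromov product of boundary points and `IsVisual a m` says that `m` is a visual metric with
parameter `a`.

`Z` is the quotient of the boundary in which the translates of the boundary of the subgroup generated by the first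
two generators are collapsed to points.
-/

set_option autoImplicit false

open Set Filter Topology

namespace Pool.Agent.Results.MP_9c739d_al.PositiveDimension

open Pool.Agent.Helper1K1.CT

section

variable (H Z : Type) [Group H] [MetricSpace Z] [MulAction H Z]

variable {H Z} in
/-- `h n` converges to the constant map `c`, uniformly on the compact subsets of `Z` without `b` -/
def ConvTo (h : ℕ → H) (b c : Z) : Prop :=
  ∀ K : Set Z, IsCompact K → b ∉ K → TendstoUniformlyOn (fun n z => h n • z) (fun _ => c) atTop K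

/-- `H` acts on `Z` as a convergence group: by homeomorphisms, and every sequence of distinct elements has a
subsequence `h` and points `b`, `c` with `ConvTo h b c` -/
def IsConvergenceAction : Prop :=
  (∀ g : H, Continuous fun z : Z => g • z) ∧
    ∀ h : ℕ → H, Function.Injective h → ∃ φ : ℕ → ℕ, StrictMono φ ∧ ∃ b c : Z, ConvTo (h ∘ φ) b c

/-- the limit set -/
def limitSet : Set Z := {c | ∃ h : ℕ → H, Function.Injective h ∧ ∃ b : Z, ConvTo h b c}

variable {Z} in
/-- conical points -/
def IsConical (z : Z) : Prop :=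
  ∃ (h : ℕ → H) (b c : Z), b ≠ c ∧ Tendsto (fun n => h n • z) atTop (𝓝 b) ∧
    ∀ y : Z, y ≠ z → Tendsto (fun n => h n • y) atTop (𝓝 c)

/-- the non-conical points of the limit set -/
def nonConical : Set Z := {z | z ∈ limitSet H Z ∧ ¬ IsConical H z}

end

theorem convTo_of_attr {m : MetricSpace Z} (hm : m.toPseudoMetricSpace.toUniformSpace.toTopologicalSpace =
    (inferInstance : TopologicalSpace Z)) {h : ℕ → FreeGroup (Fin 3)} {b c : Z} (ha : Attr h b c) :
    @ConvTo (FreeGroup (Fin 3)) Z _ m _ h b c := by
  intro K hK hb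
  rw [@Metric.tendstoUniformlyOn_iff]
  intro ε hε
  have hU : @Metric.ball Z m.toPseudoMetricSpace c ε ∈ 𝓝 c := by
    have := @Metric.ball_mem_nhds Z m.toPseudoMetricSpace c ε hε
    rwa [hm] at this
  have hK' : IsCompact K := by
    rwa [hm] at hK
  filter_upwards [ha _ hU K hK' hb] with n hn z hz
  have h1 := hn z hz
  rw [@Metric.mem_ball] at h1
  rw [@dist_comm]
  exact h1

theorem result :
    -- the boundary points are the geodesic rays from `1` in the Cayley tree
    (∀ γ : ℕ → FreeGroup (Fin 3), IsRay γ ↔ ∃! x : Bd, vtx x = γ) ∧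
    -- the action on the boundary is the extension of the left multiplication to the geodesic rays
    (∀ (g : FreeGroup (Fin 3)) (x : Bd), ∃ C : ℕ, ∀ n, ((g * vtx x n)⁻¹ * vtx (g • x) n).norm ≤ C) ∧
    -- for every `a > 1` there is a visual metric, and all of them define the topology of the boundary
    (∀ a : ℝ, 1 < a → (∃ m : MetricSpace Bd, IsVisual a m) ∧ ∀ m : MetricSpace Bd, IsVisual a m →
      m.toPseudoMetricSpace.toUniformSpace.toTopologicalSpace = (inferInstance : TopologicalSpace Bd)) ∧
    -- the counterexample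
    ∃ (Z : Type) (_ : MetricSpace Z) (_ : CompactSpace Z) (_ : MulAction (FreeGroup (Fin 3)) Z) (i : Bd → Z),
      IsConvergenceAction (FreeGroup (Fin 3)) Z ∧ 3 ≤ (limitSet (FreeGroup (Fin 3)) Z).encard ∧
      Continuous i ∧ (∀ (g : FreeGroup (Fin 3)) (x : Bd), i (g • x) = g • i x) ∧
      ∃ z ∈ nonConical (FreeGroup (Fin 3)) Z, ∀ a : ℝ, 1 < a → ∀ m : MetricSpace Bd, IsVisual a m →
        0 < @dimH Bd (@MetricSpace.toEMetricSpace Bd m) (i ⁻¹' {z}) ∧
        0 < @dimH Bd (@MetricSpace.toEMetricSpace Bd m) (i ⁻¹' nonConical (FreeGroup (Fin 3)) Z) := by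
  refine ⟨ray_iff, ray_smul, fun a ha => ⟨⟨_, isVisual_visual a ha⟩, fun m hm => hm.topology ha⟩, ?_⟩
  let m : MetricSpace Z := TopologicalSpace.metrizableSpaceMetric Z
  have hm : m.toPseudoMetricSpace.toUniformSpace.toTopologicalSpace = (inferInstance : TopologicalSpace Z) := rfl
  have hlim : ∀ s : Letter, proj (cst s) ∈ @limitSet (FreeGroup (Fin 3)) Z _ m _ := fun s =>
    ⟨_, inj_replicate s, proj (cst (bar s)), convTo_of_attr hm (attr_replicate s)⟩
  have hS : cst (0, true) ∈ S := cst_mem_S (by decide)
  have hN : proj (cst (0, true)) ∈ @nonConical (FreeGroup (Fin 3)) Z _ m _ := by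
    refine ⟨hlim _, ?_⟩
    rintro ⟨h, b, c, hbc, h1, h2⟩
    exact not_conical hS h b c hbc h1 h2
  refine ⟨Z, m, inferInstanceAs (CompactSpace Z), inferInstance, proj, ⟨continuous_smul_z, ?_⟩, ?_,
    continuous_proj, proj_smul, proj (cst (0, true)), hN, fun a ha m' hm' => ?_⟩
  · intro h hh
    obtain ⟨φ, hφ, b, c, hbc⟩ := convergence h hh
    exact ⟨φ, hφ, b, c, convTo_of_attr hm hbc⟩
  · have hne : ∀ s t : Letter, s.1 = 2 → s ≠ t → proj (cst s) ≠ proj (cst t) := by
      intro s t hs hst heq
      rw [proj_eq_iff] at heq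
      have hE : EndC [s] := ⟨[], s.2, by rw [← hs]; rfl⟩
      exact hst ((heq [s] hE).1 ⟨rfl, trivial⟩).1.symm
    have h3 : ({proj (cst (2, true)), proj (cst (2, false)), proj (cst (0, true))} : Set Z).encard = 3 := by
      rw [Set.encard_eq_three]
      exact ⟨_, _, _, hne _ _ rfl (by decide), hne _ _ rfl (by decide), hne _ _ rfl (by decide), rfl⟩
    rw [← h3]
    refine Set.encard_le_encard ?_
    rintro z (rfl | rfl | rfl) <;> exact hlim _
  · have h1 : S ⊆ proj ⁻¹' {proj (cst (0, true))} := fun x hx => proj_S hx hS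
    have h2 := dimH_pos a ha m' hm'
    refine ⟨h2.trans_le ?_, h2.trans_le ?_⟩
    · exact @dimH_mono Bd (@MetricSpace.toEMetricSpace Bd m') _ _ h1
    · refine @dimH_mono Bd (@MetricSpace.toEMetricSpace Bd m') _ _ (h1.trans ?_)
      intro x hx
      have hx' : proj x = proj (cst (0, true)) := hx
      change proj x ∈ @nonConical (FreeGroup (Fin 3)) Z _ m _
      rw [hx']
      exact hN

end Pool.Agent.Results.MP_9c739d_al.PositiveDimension
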